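import Mathlib
import Pool.Agent.H86.CMLib9.W5h23.Four.Basic
import Pool.Agent.H86.CMLib9.H50.FT.Four

/-!
# Adding the homotheties to the group
-/

set_option autoImplicit false

namespace Pool.Agent.W5h23.Four

open Module TensorProduct Pool.Agent.H204R3.GP Pool.Agent.Y114.RM Pool.Agent.H50.FT
  Pool.Agent.R913.Adj Pool.Agent

section scal

variable {k : Type} [Field k] {V : Type} [AddCommGroup V] [Module k V]
  {Γ : Type} [Group Γ] (ρ : Representation k Γ V) (χ : Γ →* k)

/-- the representation of the product of the group of homotheties and `Γ` -/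
def sr : Representation k (kˣ × Γ) V where
  toFun p := (p.1 : k) • ρ p.2
  map_one' := by rw [Prod.fst_one, Prod.snd_one, Units.val_one, map_one, one_smul]
  map_mul' p q := by
    rw [Prod.fst_mul, Prod.snd_mul, Units.val_mul, map_mul, smul_mul_smul_comm]

theorem sr_apply (p : kˣ × Γ) (v : V) : sr ρ p v = (p.1 : k) • ρ p.2 v := rfl

theorem sr_one (γ : Γ) : sr ρ (1, γ) = ρ γ := by
  refine LinearMap.ext fun v => ?_
  rw [sr_apply, Units.val_one, one_smul]

/-- the multiplier character -/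
def sc : (kˣ × Γ) →* k where
  toFun p := (p.1 : k) ^ 2 * χ p.2
  map_one' := by rw [Prod.fst_one, Prod.snd_one, Units.val_one, map_one, one_pow, one_mul]
  map_mul' p q := by
    rw [Prod.fst_mul, Prod.snd_mul, Units.val_mul, map_mul]
    ring

theorem sc_apply (p : kˣ × Γ) : sc χ p = (p.1 : k) ^ 2 * χ p.2 := rfl

variable {ρ χ}

theorem isTate_sr {m : ℕ} {φ : MultilinearMap k (fun _ : Fin m × Fin 2 => V) k}
    (h : IsTateTensor ρ χ m φ) : IsTateTensor (sr ρ) (sc χ) m φ := by
  obtain ⟨Δ, hΔ, h⟩ := h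
  refine ⟨Δ.comap (MonoidHom.snd kˣ Γ), ⟨by
    rw [Subgroup.index_comap_of_surjective Δ (f := MonoidHom.snd kˣ Γ) (fun γ => ⟨(1, γ), rfl⟩)]
    exact hΔ.index_ne_zero⟩, fun s hs v => ?_⟩
  simp only [sr_apply, sc_apply]
  have h1 := φ.map_smul_univ (fun _ => (s.1 : k)) (fun l => ρ s.2 (v l))
  rw [h1, h s.2 hs v, Finset.prod_const, Finset.card_univ, Fintype.card_prod, Fintype.card_fin,
    Fintype.card_fin, smul_eq_mul]
  ring

theorem semisimple_sr (hss : FiniteIndexSemisimple ρ) : FiniteIndexSemisimple (sr ρ) := by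
  intro Δ hΔ U hU
  have hfi : (Δ.map (MonoidHom.snd kˣ Γ)).FiniteIndex := by
    refine ⟨fun h0 => hΔ.index_ne_zero ?_⟩
    have h1 : (Δ.map (MonoidHom.snd kˣ Γ)).index ∣ Δ.index :=
      Subgroup.index_map_dvd Δ (fun γ => ⟨(1, γ), rfl⟩)
    rw [h0] at h1
    exact Nat.eq_zero_of_zero_dvd h1
  obtain ⟨U', hU', hc⟩ := hss _ hfi U (by
    rintro s ⟨p, hp, rfl⟩ u hu
    have h1 := U.smul_mem ((p.1⁻¹ : kˣ) : k) (hU p hp u hu)
    rw [sr_apply, smul_smul, ← Units.val_mul, inv_mul_cancel, Units.val_one, one_smul] at h1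
    exact h1)
  refine ⟨U', fun p hp u hu => ?_, hc⟩
  rw [sr_apply]
  exact U'.smul_mem _ (hU' p.2 ⟨p, hp, rfl⟩ u hu)

/-- the homotheties kill the Tate tensors for the enlarged group -/
theorem one_kills [CharZero k] [FiniteDimensional k V] {m : ℕ} {φ : Tensor k V m}
    (h : TateTensor (sr ρ) φ) : KillsTensor (1 : End k V) φ := by
  classical
  obtain ⟨Δ, hΔ, h⟩ := h
  let c : kˣ := Units.mk0 2 two_ne_zero
  obtain ⟨N, hN, -, hcN⟩ := Subgroup.exists_pow_mem_of_index_ne_zero hΔ.index_ne_zero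
    ((c, 1) : kˣ × Γ)
  let b := (finBasis k V).prod (finBasis k V).dualBasis
  let ε : Fin (finrank k V) ⊕ Fin (finrank k V) → ℤ := Sum.elim (fun _ => 1) (fun _ => -1)
  have hone : (LinearMap.dualMap (1 : End k V)) = 1 := rfl
  have h1 : ∀ i, lie (1 : End k V) (b i) = (ε i : k) • b i := by
    rintro (i | i)
    · simp [b, ε, lie, Basis.prod_apply]
    · simp only [b, ε, lie, Basis.prod_apply, hone]
      simp
      exact (neg_one_smul k _).symm
  have hpow : ((c, 1) : kˣ × Γ) ^ N = (c ^ N, 1) := by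
    rw [Prod.pow_mk, one_pow]
  have hc : ((c ^ N : kˣ) : k) = 2 ^ N := rfl
  have hc' : (((c ^ N)⁻¹ : kˣ) : k) = (2 ^ N)⁻¹ := by
    rw [Units.val_inv_eq_inv_val, hc]
  have hg : sr ρ (c ^ N, 1) = (2 ^ N : k) • (1 : End k V) := by
    refine LinearMap.ext fun v => ?_
    rw [sr_apply, map_one, hc]
    rfl
  have hg' : sr ρ (c ^ N, 1)⁻¹ = ((2 ^ N : k)⁻¹) • (1 : End k V) := by
    refine LinearMap.ext fun v => ?_
    rw [Prod.inv_mk, inv_one, sr_apply, map_one, hc']
    rfl
  have h2 : ∀ i, grp (sr ρ ((c, 1) ^ N)) (sr ρ ((c, 1) ^ N)⁻¹) (b i) =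
      ((2 : k) ^ ((N : ℤ) * ε i)) • b i := by
    intro i
    rw [hpow, hg, hg']
    rcases i with i | i
    · simp [b, ε, grp, Basis.prod_apply]
    · have h5 : (LinearMap.dualMap (((2 ^ N : k)⁻¹) • (1 : End k V))) =
          ((2 ^ N : k)⁻¹) • (1 : End k (Dual k V)) := by
        refine LinearMap.ext fun f => LinearMap.ext fun x => ?_
        simp
      simp [b, ε, grp, Basis.prod_apply, h5]
  suffices h3 : Four.der (lie (1 : End k V)) φ = 0 by
    intro v
    have h4 := congrArg (fun F : MultilinearMap k (fun _ : Fin m => V × Dual k V) k => F v) h3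
    simp only [der_apply, MultilinearMap.zero_apply] at h4
    exact h4
  refine Basis.ext_multilinear (fun _ => b) fun I => ?_
  rw [der_apply, MultilinearMap.zero_apply]
  have h4 : ∀ l, φ (Function.update (fun l => b (I l)) l (lie (1 : End k V) (b (I l)))) =
      (ε (I l) : k) * φ (fun l => b (I l)) := by
    intro l
    rw [h1, MultilinearMap.map_update_smul, smul_eq_mul]
    congr 2
    exact Function.update_eq_self _ _
  rw [Finset.sum_congr rfl fun l _ => h4 l, ← Finset.sum_mul]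
  have h5 := h _ hcN (fun l => b (I l))
  simp only [h2] at h5
  rw [MultilinearMap.map_smul_univ, smul_eq_mul] at h5
  by_cases h6 : φ (fun l => b (I l)) = 0
  · rw [h6, mul_zero]
  · have h7 : ∏ l, (2 : k) ^ ((N : ℤ) * ε (I l)) = 1 := by
      have h8 : (∏ l, (2 : k) ^ ((N : ℤ) * ε (I l)) - 1) * φ (fun l => b (I l)) = 0 := by
        rw [sub_mul, h5, one_mul, sub_self]
      rcases mul_eq_zero.1 h8 with h9 | h9
      · exact sub_eq_zero.1 h9
      · exact absurd h9 h6
    have h8 : ∀ (s : Finset (Fin m)) (f : Fin m → ℤ), ∏ l ∈ s, (2 : k) ^ f l =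
        (2 : k) ^ (∑ l ∈ s, f l) := by
      intro s f
      induction s using Finset.induction_on with
      | empty => rw [Finset.prod_empty, Finset.sum_empty, zpow_zero]
      | insert a s ha ih =>
        rw [Finset.prod_insert ha, Finset.sum_insert ha, zpow_add₀ two_ne_zero, ih]
    rw [h8, ← Finset.mul_sum] at h7
    have h9 : (2 : ℚ) ^ ((N : ℤ) * ∑ l, ε (I l)) = 1 := by
      have h10 : (((2 : ℚ) ^ ((N : ℤ) * ∑ l, ε (I l)) : ℚ) : k) = ((1 : ℚ) : k) := by
        rw [Rat.cast_zpow, Rat.cast_ofNat, h7, Rat.cast_one]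
      exact Rat.cast_injective h10
    rw [zpow_eq_one_iff_right₀ (by norm_num) (by norm_num)] at h9
    have h10 : ∑ l, ε (I l) = 0 := by
      rcases mul_eq_zero.1 h9 with h | h
      · omega
      · exact h
    rw [← Int.cast_sum, h10, Int.cast_zero, zero_mul]

end scal

end Pool.Agent.W5h23.Four
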