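import Mathlib
import Pool.Agent.H86.CMLib9.W5h23.Four.Scal

/-!
# Tate classes in the multilinear forms and Tate tensors
-/

set_option autoImplicit false

namespace Pool.Agent.W5h23.Four

open Module TensorProduct Pool.Agent.H204R3.GP Pool.Agent.Y114.RM Pool.Agent.H50.FT
  Pool.Agent.R913.Adj Pool.Agent

section mult

variable {k : Type} [Field k] {V : Type} [AddCommGroup V] [Module k V] [FiniteDimensional k V]
  {Γ : Type} [Group Γ] {ρ : Representation k Γ V} {χ : Γ →* k}
  (ω : V →ₗ[k] V →ₗ[k] k) (hl : ∀ u, (∀ v, ω u v = 0) → u = 0)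

/-- the isomorphism of `V` and its dual given by `ω` -/
noncomputable def toD : V ≃ₗ[k] Dual k V :=
  LinearMap.linearEquivOfInjective (ω : V →ₗ[k] Dual k V) (by
    rw [injective_iff_map_eq_zero]
    intro u hu
    exact hl u fun v => by rw [hu, LinearMap.zero_apply]) Subspace.dual_finrank_eq.symm

theorem toD_apply (u v : V) : toD ω hl u v = ω u v := rfl

theorem toD_symm (f : Dual k V) (v : V) : ω ((toD ω hl).symm f) v = f v := by
  rw [← toD_apply ω hl, LinearEquiv.apply_symm_apply]

/-- the adjoint -/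
noncomputable def adj (Y : End k V) : End k V :=
  (toD ω hl).symm.toLinearMap ∘ₗ Y.dualMap ∘ₗ (toD ω hl).toLinearMap

theorem adj_form (Y : End k V) (x y : V) : ω (adj ω hl Y x) y = ω x (Y y) := by
  change ω ((toD ω hl).symm (Y.dualMap (toD ω hl x))) y = _
  rw [toD_symm]
  rfl

/-- the map from the sum of `V` and its dual to `V` -/
noncomputable def mapA (m : ℕ) (p : Fin m × Fin 2) : V × Dual k V →ₗ[k] V :=
  if p.2 = 0 then LinearMap.fst k V (Dual k V) else
    (toD ω hl).symm.toLinearMap ∘ₗ LinearMap.snd k V (Dual k V)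

/-- the tensor attached to a multilinear form -/
noncomputable def trans {m : ℕ} (φ : MultilinearMap k (fun _ : Fin m × Fin 2 => V) k) :
    Tensor k V (m * 2) :=
  MultilinearMap.domDomCongr finProdFinEquiv (φ.compLinearMap (mapA ω hl m))

theorem trans_apply {m : ℕ} (φ : MultilinearMap k (fun _ : Fin m × Fin 2 => V) k)
    (w : Fin (m * 2) → V × Dual k V) :
    trans ω hl φ w = φ (fun p => mapA ω hl m p (w (finProdFinEquiv p))) := rfl

theorem prod_half (m : ℕ) (c : k) :
    ∏ p : Fin m × Fin 2, (if p.2 = 0 then (1 : k) else c) = c ^ m := by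
  rw [Fintype.prod_prod_type]
  simp [Fin.prod_univ_two]

variable (hω : ∀ s u v, ω (ρ s u) (ρ s v) = χ s * ω u v)

theorem chi_ne_zero (γ : Γ) : χ γ ≠ 0 := by
  intro h0
  have h1 : χ γ * χ γ⁻¹ = 1 := by rw [← map_mul, mul_inv_cancel, map_one]
  rw [h0, zero_mul] at h1
  exact zero_ne_one h1

include hω in
theorem tate_trans {m : ℕ} {φ : MultilinearMap k (fun _ : Fin m × Fin 2 => V) k}
    (h : IsTateTensor ρ χ m φ) : TateTensor ρ (trans ω hl φ) := by
  obtain ⟨Δ, hΔ, h⟩ := h
  refine ⟨Δ, hΔ, fun γ hγ w => ?_⟩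
  rw [trans_apply, trans_apply]
  have h1 : ∀ p : Fin m × Fin 2, mapA ω hl m p (grp (ρ γ) (ρ γ⁻¹) (w (finProdFinEquiv p))) =
      (if p.2 = 0 then (1 : k) else (χ γ)⁻¹) • ρ γ (mapA ω hl m p (w (finProdFinEquiv p))) := by
    intro p
    unfold mapA
    by_cases hp : p.2 = 0
    · rw [if_pos hp, if_pos hp, one_smul]
      rfl
    · rw [if_neg hp, if_neg hp]
      change (toD ω hl).symm ((w (finProdFinEquiv p)).2 ∘ₗ ρ γ⁻¹) =
        (χ γ)⁻¹ • ρ γ ((toD ω hl).symm (w (finProdFinEquiv p)).2)
      apply (toD ω hl).injective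
      rw [LinearEquiv.apply_symm_apply]
      refine LinearMap.ext fun v => ?_
      rw [toD_apply, map_smul, LinearMap.smul_apply]
      have h2 : ρ γ (ρ γ⁻¹ v) = v := by
        rw [← Module.End.mul_apply, ← map_mul, mul_inv_cancel, map_one, Module.End.one_apply]
      conv_rhs => rw [← h2]
      rw [hω, toD_symm, smul_eq_mul, ← mul_assoc, inv_mul_cancel₀ (chi_ne_zero γ), one_mul]
      rfl
  simp only [h1]
  rw [MultilinearMap.map_smul_univ, prod_half, h γ hγ, smul_eq_mul, ← mul_assoc, ← mul_pow,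
    inv_mul_cancel₀ (chi_ne_zero γ), one_pow, one_mul]

include hω in
theorem kills_trans {Y : End k V} (hY : Y ∈ LT ρ) {m : ℕ}
    {φ : MultilinearMap k (fun _ : Fin m × Fin 2 => V) k} (h : IsTateTensor ρ χ m φ)
    (x : Fin m × Fin 2 → V) :
    ∑ p, φ (Function.update x p (if p.2 = 0 then Y (x p) else -(adj ω hl Y (x p)))) = 0 := by
  have h1 := hY.2 _ _ (tate_trans ω hl hω h)
  let w : Fin (m * 2) → V × Dual k V := fun l =>
    if (finProdFinEquiv.symm l).2 = 0 then (x (finProdFinEquiv.symm l), 0) else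
      (0, toD ω hl (x (finProdFinEquiv.symm l)))
  have hw : ∀ p, mapA ω hl m p (w (finProdFinEquiv p)) = x p := by
    intro p
    simp only [w, Equiv.symm_apply_apply, mapA]
    by_cases hp : p.2 = 0
    · rw [if_pos hp, if_pos hp]
      rfl
    · rw [if_neg hp, if_neg hp]
      exact LinearEquiv.symm_apply_apply _ _
  have hw' : ∀ p, mapA ω hl m p (lie Y (w (finProdFinEquiv p))) =
      if p.2 = 0 then Y (x p) else -(adj ω hl Y (x p)) := by
    intro p
    simp only [w, Equiv.symm_apply_apply, mapA]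
    by_cases hp : p.2 = 0
    · rw [if_pos hp, if_pos hp, if_pos hp]
      rfl
    · rw [if_neg hp, if_neg hp, if_neg hp]
      change (toD ω hl).symm (-(Y.dualMap (toD ω hl (x p)))) = _
      rw [map_neg]
      rfl
  have h2 := h1 w
  rw [← finProdFinEquiv.sum_comp] at h2
  rw [← h2]
  refine Finset.sum_congr rfl fun p _ => ?_
  rw [trans_apply, ← hw']
  congr 1
  funext q
  by_cases hq : q = p
  · subst hq
    rw [Function.update_self, Function.update_self]
  · rw [Function.update_of_ne hq, Function.update_of_ne (fun h' => hq (finProdFinEquiv.injective h')),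
      hw]

end mult

section quad

variable {k : Type} [Field k] {V : Type} [AddCommGroup V] [Module k V]

/-- a form in four variables -/
def quadOf (F : V → V → V → V → k) (h1 : ∀ b c d, IsLinearMap k fun a => F a b c d)
    (h2 : ∀ a c d, IsLinearMap k fun b => F a b c d)
    (h3 : ∀ a b d, IsLinearMap k fun c => F a b c d)
    (h4 : ∀ a b c, IsLinearMap k fun d => F a b c d) :
    MultilinearMap k (fun _ : Fin 2 × Fin 2 => V) k where
  toFun v := F (v (0, 0)) (v (0, 1)) (v (1, 0)) (v (1, 1))
  map_update_add' := by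
    intro inst v i x y
    have hi : inst = instDecidableEqProd := Subsingleton.elim _ _
    subst hi
    obtain ⟨i, j⟩ := i
    fin_cases i <;> fin_cases j <;>
      simp [Function.update, (h1 _ _ _).map_add, (h2 _ _ _).map_add, (h3 _ _ _).map_add,
        (h4 _ _ _).map_add]
  map_update_smul' := by
    intro inst v i c x
    have hi : inst = instDecidableEqProd := Subsingleton.elim _ _
    subst hi
    obtain ⟨i, j⟩ := i
    fin_cases i <;> fin_cases j <;>
      simp [Function.update, (h1 _ _ _).map_smul, (h2 _ _ _).map_smul, (h3 _ _ _).map_smul,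
        (h4 _ _ _).map_smul]

end quad

end Pool.Agent.W5h23.Four
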