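import Mathlib
import Pool.Agent.H86.CMLib9.W5h23.Four.Quad

/-!
# The symplectic part of the Lie algebra of the Tate tensors
-/

set_option autoImplicit false

namespace Pool.Agent.W5h23.Four

open Module TensorProduct Pool.Agent.H204R3.GP Pool.Agent.Y114.RM Pool.Agent.H50.FT
  Pool.Agent.R913.Adj Pool.Agent

section lie

variable {k : Type} [Field k] [CharZero k] {V : Type} [AddCommGroup V] [Module k V]
  [FiniteDimensional k V] {Γ : Type} [Group Γ] {ρ : Representation k Γ V} {χ : Γ →* k}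
  (ω : V →ₗ[k] V →ₗ[k] k) (hl : ∀ u, (∀ v, ω u v = 0) → u = 0)
  (hω : ∀ s u v, ω (ρ s u) (ρ s v) = χ s * ω u v)

include hl in
theorem trace_sp {X : End k V} (hX : ∀ x y, ω (X x) y + ω x (X y) = 0) :
    LinearMap.trace k V X = 0 := by
  have h1 : adj ω hl X = -X := by
    refine LinearMap.ext fun x => ?_
    rw [← sub_eq_zero]
    refine hl _ fun y => ?_
    rw [map_sub, LinearMap.sub_apply, adj_form, LinearMap.neg_apply, map_neg, LinearMap.neg_apply,
      sub_neg_eq_add, add_comm, hX]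
  have h2 : LinearMap.trace k V (adj ω hl X) = LinearMap.trace k V X := by
    have h3 := LinearMap.trace_conj' (R := k) (X.dualMap) (toD ω hl).symm
    have h4 : (toD ω hl).symm.conj X.dualMap = adj ω hl X := rfl
    rw [h4] at h3
    rw [h3]
    exact LinearMap.trace_transpose' X
  rw [h1, map_neg] at h2
  linear_combination (-1 / 2 : k) * h2

include hl hω in
/-- the symplectic part of the Lie algebra of the Tate tensors -/
theorem exists_lie (hss : FiniteIndexSemisimple ρ) :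
    ∃ L : Submodule k (End k V), IsLie L ∧ NonDeg L ∧
      (∀ Y ∈ L, ∀ x y, ω (Y x) y + ω x (Y y) = 0) ∧
      (∀ γ, ∀ Y ∈ L, AdE (ρ γ) (ρ γ⁻¹) Y ∈ L) ∧ (∀ Y ∈ L, KillsTate ρ χ Y 0) ∧
      (∀ Y : End k V, (∀ x y, ω (Y x) y + ω x (Y y) = 0) → (∀ (m : ℕ) (φ : Tensor k V m),
        TateTensor (sr ρ) φ → KillsTensor Y φ) → Y ∈ L) ∧
      ∀ γ, ∃ M : ℕ, 0 < M ∧ ∀ Z, (∀ Y ∈ L, Y * Z = Z * Y) → ρ γ ^ M * Z = Z * ρ γ ^ M := by
  obtain ⟨L', hL, hLie, hAd, -⟩ := Y41.RM.lieL' k V (kˣ × Γ) (sr ρ)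
  have hnd : NonDeg L' := nonDeg_of_semisimple (semisimple_sr hss) hL hLie hAd
  have h1L : (1 : End k V) ∈ L' :=
    (hL _).2 (mem_LT_of_semisimple (sr ρ) (semisimple_sr hss) fun m φ hφ => one_kills hφ)
  have hω' : ∀ s u v, ω (sr ρ s u) (sr ρ s v) = sc χ s * ω u v := by
    intro s u v
    rw [sr_apply, sr_apply, sc_apply, map_smul, map_smul, LinearMap.smul_apply, hω, smul_eq_mul,
      smul_eq_mul]
    ring
  let L : Submodule k (End k V) := L' ⊓
    { carrier := {Y | ∀ x y, ω (Y x) y + ω x (Y y) = 0}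
      zero_mem' := fun x y => by simp
      add_mem' := fun {a b} ha hb x y => by
        have h1 := ha x y
        have h2 := hb x y
        simp only [LinearMap.add_apply, map_add]
        linear_combination h1 + h2
      smul_mem' := fun c a ha x y => by
        have h1 := ha x y
        simp only [LinearMap.smul_apply, map_smul, smul_eq_mul]
        linear_combination c * h1 }
  have hmem : ∀ Y, Y ∈ L ↔ Y ∈ L' ∧ ∀ x y, ω (Y x) y + ω x (Y y) = 0 := fun Y => Iff.rfl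
  have hdec : ∀ Y ∈ L', ∃ c : k, Y - c • (1 : End k V) ∈ L := by
    intro Y hY
    obtain ⟨μ, hμ⟩ := exists_mult ω hl hω' ((hL Y).1 hY)
    refine ⟨μ / 2, (hmem _).2 ⟨L'.sub_mem hY (L'.smul_mem _ h1L), fun x y => ?_⟩⟩
    have h1 := hμ x y
    simp only [LinearMap.sub_apply, LinearMap.smul_apply, Module.End.one_apply, map_sub, map_smul,
      smul_eq_mul]
    linear_combination h1
  refine ⟨L, ?_, ?_, fun Y hY => ((hmem Y).1 hY).2, ?_, ?_, fun Y h1 h2 => (hmem Y).2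
    ⟨(hL _).2 (mem_LT_of_semisimple (sr ρ) (semisimple_sr hss) h2), h1⟩, ?_⟩
  · intro X hX Y hY
    refine (hmem _).2 ⟨hLie X hX.1 Y hY.1, fun x y => ?_⟩
    have h1 := ((hmem X).1 hX).2 (Y x) y
    have h2 := ((hmem X).1 hX).2 x (Y y)
    have h3 := ((hmem Y).1 hY).2 (X x) y
    have h4 := ((hmem Y).1 hY).2 x (X y)
    simp only [LinearMap.sub_apply, Module.End.mul_apply, map_sub]
    linear_combination h1 + h2 - h3 - h4
  · intro X hX h
    refine hnd X hX.1 fun Y hY => ?_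
    obtain ⟨c, hc⟩ := hdec Y hY
    have h1 := h _ hc
    rw [mul_sub, map_sub, mul_smul_comm, mul_one, map_smul,
      trace_sp ω hl ((hmem X).1 hX).2, smul_zero, sub_zero] at h1
    exact h1
  · intro γ Y hY
    have h0 := hAd (1, γ) Y hY.1
    have h0' : ((1, γ) : kˣ × Γ)⁻¹ = (1, γ⁻¹) := by rw [Prod.inv_mk, inv_one]
    rw [h0', sr_one, sr_one] at h0
    refine (hmem _).2 ⟨h0, fun x y => ?_⟩
    have him : ∀ x, ρ γ (ρ γ⁻¹ x) = x := fun x => by
      rw [← Module.End.mul_apply, ← map_mul, mul_inv_cancel, map_one, Module.End.one_apply]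
    have h1 := ((hmem Y).1 hY).2 (ρ γ⁻¹ x) (ρ γ⁻¹ y)
    rw [AdE_apply]
    change ω (ρ γ (Y (ρ γ⁻¹ x))) y + ω x (ρ γ (Y (ρ γ⁻¹ y))) = 0
    have h2 := hω γ (Y (ρ γ⁻¹ x)) (ρ γ⁻¹ y)
    have h3 := hω γ (ρ γ⁻¹ x) (Y (ρ γ⁻¹ y))
    rw [him] at h2 h3
    rw [h2, h3, ← mul_add, h1, mul_zero]
  · intro Y hY m φ hφ v
    exact kills_of_mem ω hl hω' ((hL Y).1 hY.1)
      (fun x y => by rw [((hmem Y).1 hY).2, zero_mul]) φ (isTate_sr hφ) v
  · intro γ
    obtain ⟨M, hM, h⟩ := comm_order (ρ := sr ρ) hL (1, γ)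
    refine ⟨M, hM, fun Z hZ => ?_⟩
    have h1 := h Z (fun Y hY => by
      obtain ⟨c, hc⟩ := hdec Y hY
      have h2 := hZ _ hc
      rw [sub_mul, mul_sub, smul_mul_assoc, mul_smul_comm, one_mul, mul_one] at h2
      exact sub_left_injective h2)
    rwa [sr_one] at h1

end lie

end Pool.Agent.W5h23.Four
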