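import Mathlib
import Pool.Agent.H86.CMLib9.W5h23.Four.Lie

/-!
# Symplectic endomorphisms which kill the Tate classes kill all Tate tensors
-/

set_option autoImplicit false

namespace Pool.Agent.W5h23.Four

open Module TensorProduct Pool.Agent.H204R3.GP Pool.Agent.Y114.RM Pool.Agent.H50.FT
  Pool.Agent.R913.Adj Pool.Agent

section full

variable {k : Type} [Field k] [CharZero k] {V : Type} [AddCommGroup V] [Module k V]
  [FiniteDimensional k V] {Γ : Type} [Group Γ] {ρ : Representation k Γ V} {χ : Γ →* k}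
  (ω : V →ₗ[k] V →ₗ[k] k) (hl : ∀ u, (∀ v, ω u v = 0) → u = 0)
  (hω : ∀ s u v, ω (ρ s u) (ρ s v) = χ s * ω u v)

/-- the inclusions in the sum of `V` and its dual -/
noncomputable def incS {n : ℕ} (S : Finset (Fin n)) (l : Fin n) : V →ₗ[k] V × Dual k V :=
  if l ∈ S then LinearMap.inl k V (Dual k V) else
    LinearMap.inr k V (Dual k V) ∘ₗ (toD ω hl).toLinearMap

omit [CharZero k] in
include hω in
theorem incS_grp {n : ℕ} (S : Finset (Fin n)) (l : Fin n) (γ : Γ) (x : V) :
    grp (ρ γ) (ρ γ⁻¹) (incS ω hl S l x) =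
      (if l ∈ S then (1 : k) else (χ γ)⁻¹) • incS ω hl S l (ρ γ x) := by
  unfold incS
  by_cases hS : l ∈ S
  · rw [if_pos hS, if_pos hS, one_smul]
    change ((ρ γ) x, (0 : Dual k V) ∘ₗ ρ γ⁻¹) = (ρ γ x, (0 : Dual k V))
    rw [LinearMap.zero_comp]
  · rw [if_neg hS, if_neg hS]
    change (ρ γ 0, (toD ω hl x) ∘ₗ ρ γ⁻¹) = (χ γ)⁻¹ • ((0 : V), toD ω hl (ρ γ x))
    rw [map_zero, Prod.smul_mk, smul_zero]
    congr 1
    refine LinearMap.ext fun v => ?_
    have h2 : ρ γ (ρ γ⁻¹ v) = v := by
      rw [← Module.End.mul_apply, ← map_mul, mul_inv_cancel, map_one, Module.End.one_apply]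
    rw [LinearMap.smul_apply, toD_apply]
    conv_rhs => rw [← h2]
    rw [hω, smul_eq_mul, ← mul_assoc, inv_mul_cancel₀ (chi_ne_zero γ), one_mul]
    rfl

omit [CharZero k] in
theorem incS_lie {Y : End k V} (hY : ∀ x y, ω (Y x) y + ω x (Y y) = 0) {n : ℕ}
    (S : Finset (Fin n)) (l : Fin n) (x : V) :
    lie Y (incS ω hl S l x) = incS ω hl S l (Y x) := by
  unfold incS
  by_cases hS : l ∈ S
  · rw [if_pos hS]
    change (Y x, -((0 : Dual k V) ∘ₗ Y)) = (Y x, (0 : Dual k V))
    rw [LinearMap.zero_comp, neg_zero]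
  · rw [if_neg hS]
    change (Y 0, -((toD ω hl x) ∘ₗ Y)) = ((0 : V), toD ω hl (Y x))
    rw [map_zero]
    congr 1
    refine LinearMap.ext fun v => ?_
    rw [LinearMap.neg_apply, toD_apply, LinearMap.comp_apply, toD_apply]
    linear_combination -hY x v

theorem two_zpow_ne {z : ℤ} (h : (2 : k) ^ z = 1) : z = 0 := by
  have h9 : (2 : ℚ) ^ z = 1 := by
    have h10 : (((2 : ℚ) ^ z : ℚ) : k) = ((1 : ℚ) : k) := by
      rw [Rat.cast_zpow, Rat.cast_ofNat, h, Rat.cast_one]
    exact Rat.cast_injective h10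
  rwa [zpow_eq_one_iff_right₀ (by norm_num) (by norm_num)] at h9

theorem prod_ite_card {n : ℕ} (S : Finset (Fin n)) (c : k) :
    ∏ l : Fin n, (if l ∈ S then (1 : k) else c) = c ^ Sᶜ.card := by
  rw [Finset.prod_ite, Finset.prod_const_one, one_mul, Finset.prod_const]
  congr 2
  ext l
  simp

include hω in
theorem kills_part {Y : End k V} (hk : KillsTate ρ χ Y 0) {n : ℕ} {Φ : Tensor k V n}
    (hΦ : TateTensor (sr ρ) Φ) (S : Finset (Fin n)) (x : Fin n → V) :
    ∑ l, (Φ.compLinearMap (incS ω hl S)) (Function.update x l (Y (x l))) = 0 := by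
  classical
  obtain ⟨Δ, hΔ, h⟩ := hΦ
  have hω' : ∀ s u v, ω (sr ρ s u) (sr ρ s v) = sc χ s * ω u v := by
    intro s u v
    rw [sr_apply, sr_apply, sc_apply, map_smul, map_smul, LinearMap.smul_apply, hω, smul_eq_mul,
      smul_eq_mul]
    ring
  set F := Φ.compLinearMap (incS ω hl S) with hF
  have hFa : ∀ x, F x = Φ (fun l => incS ω hl S l (x l)) := fun x => rfl
  have h1 : ∀ g ∈ Δ, ∀ x, F (fun l => sr ρ g (x l)) = (sc χ g) ^ Sᶜ.card * F x := by
    intro g hg x
    have h2 := h g hg (fun l => incS ω hl S l (x l))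
    simp only [incS_grp ω hl hω'] at h2
    rw [MultilinearMap.map_smul_univ, prod_ite_card, smul_eq_mul] at h2
    rw [hFa, hFa, ← h2, ← mul_assoc, ← mul_pow, mul_inv_cancel₀ (chi_ne_zero g), one_pow, one_mul]
  by_cases hn : n = Sᶜ.card * 2
  · set m := Sᶜ.card with hm
    let e : Fin m × Fin 2 ≃ Fin n := finProdFinEquiv.trans (finCongr hn.symm)
    let φ : MultilinearMap k (fun _ : Fin m × Fin 2 => V) k :=
      MultilinearMap.domDomCongr e.symm F
    have hφ : ∀ v, φ v = F (fun i => v (e.symm i)) := fun v => rfl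
    have hT : IsTateTensor ρ χ m φ := by
      refine ⟨Δ.comap (MonoidHom.inr kˣ Γ), ⟨?_⟩, fun γ hγ v => ?_⟩
      · intro h0
        rw [Subgroup.index_comap] at h0
        exact hΔ.index_ne_zero (Subgroup.index_eq_zero_of_relIndex_eq_zero h0)
      · have h2 := h1 (1, γ) hγ (fun i => v (e.symm i))
        rw [sc_apply, Units.val_one, one_pow, one_mul] at h2
        simp only [sr_one] at h2
        exact h2
    have h3 := hk m φ hT (fun p => x (e p))
    rw [mul_zero, zero_mul] at h3
    rw [← h3, ← e.sum_comp]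
    refine Finset.sum_congr rfl fun p _ => ?_
    rw [hφ]
    congr 1
    funext i
    by_cases hi : i = e p
    · subst hi
      rw [Function.update_self, Equiv.symm_apply_apply, Function.update_self]
    · rw [Function.update_of_ne hi, Function.update_of_ne (fun h' => hi (by
        rw [← h', Equiv.apply_symm_apply])), Equiv.apply_symm_apply]
  · have h0 : ∀ x, F x = 0 := by
      intro x
      by_contra hx
      let c : kˣ := Units.mk0 2 two_ne_zero
      obtain ⟨N, hN, -, hcN⟩ := Subgroup.exists_pow_mem_of_index_ne_zero hΔ.index_ne_zero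
        ((c, 1) : kˣ × Γ)
      have hpow : ((c, 1) : kˣ × Γ) ^ N = (c ^ N, 1) := by
        rw [Prod.pow_mk, one_pow]
      rw [hpow] at hcN
      have hc : ((c ^ N : kˣ) : k) = 2 ^ N := rfl
      have h2 := h1 _ hcN x
      simp only [sr_apply, sc_apply, map_one, Module.End.one_apply, hc, mul_one] at h2
      rw [MultilinearMap.map_smul_univ, Finset.prod_const, Finset.card_univ, Fintype.card_fin,
        smul_eq_mul] at h2
      have h3 := mul_right_cancel₀ hx h2
      have h4 : (2 : k) ^ (((N * n : ℕ) : ℤ) - ((N * 2 * Sᶜ.card : ℕ) : ℤ)) = 1 := by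
        have h8 : (2 : k) ^ (N * n) = 2 ^ (N * 2 * Sᶜ.card) := by
          rw [pow_mul, pow_mul, pow_mul]
          exact h3
        rw [zpow_sub₀ two_ne_zero, zpow_natCast, zpow_natCast, h8,
          div_self (pow_ne_zero _ two_ne_zero)]
      have h5 := two_zpow_ne h4
      apply hn
      have h6 : N * n = N * (2 * Sᶜ.card) := by
        rw [← mul_assoc]
        omega
      have h7 := Nat.eq_of_mul_eq_mul_left hN h6
      omega
    exact Finset.sum_eq_zero fun l _ => h0 _

include hω hl in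
/-- a symplectic endomorphism which kills the Tate classes kills the Tate tensors for the enlarged
group -/
theorem kills_mixed {Y : End k V} (hY : ∀ x y, ω (Y x) y + ω x (Y y) = 0)
    (hk : KillsTate ρ χ Y 0) {n : ℕ} {Φ : Tensor k V n} (hΦ : TateTensor (sr ρ) Φ) :
    KillsTensor Y Φ := by
  classical
  suffices h3 : Four.der (lie Y) Φ = 0 by
    intro v
    have h4 := congrArg (fun F : MultilinearMap k (fun _ : Fin n => V × Dual k V) k => F v) h3
    simp only [der_apply, MultilinearMap.zero_apply] at h4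
    exact h4
  let b := finBasis k V
  let B := b.prod (b.map (toD ω hl))
  refine Basis.ext_multilinear (fun _ => B) fun I => ?_
  let S : Finset (Fin n) := Finset.univ.filter fun l => (I l).isLeft
  let x : Fin n → V := fun l => b (Sum.elim id id (I l))
  have hx : (fun l => B (I l)) = fun l => incS ω hl S l (x l) := by
    funext l
    simp only [incS, S, x, Finset.mem_filter, Finset.mem_univ, true_and, B]
    rcases hI : I l with i | i
    · simp [Basis.prod_apply]
    · simp [Basis.prod_apply]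
  rw [hx, der_apply, MultilinearMap.zero_apply, ← kills_part ω hl hω hk hΦ S x]
  refine Finset.sum_congr rfl fun l _ => ?_
  rw [incS_lie ω hl hY, MultilinearMap.compLinearMap_apply]
  congr 1
  funext i
  by_cases hi : i = l
  · subst hi
    rw [Function.update_self, Function.update_self]
  · rw [Function.update_of_ne hi, Function.update_of_ne hi]

/-- The symplectic part of the Lie algebra of the Tate classes: the endomorphisms of `V`, infinitesimal
isometries of `ω`, which kill all Tate classes in the tensor powers of the first cohomology group. -/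
def TateLie (ρ : Representation k Γ V) (χ : Γ →* k) (ω : V →ₗ[k] V →ₗ[k] k) :
    Submodule k (End k V) where
  carrier := {Y | (∀ x y, ω (Y x) y + ω x (Y y) = 0) ∧ KillsTate ρ χ Y 0}
  zero_mem' := ⟨fun x y => by simp, fun m φ _ v => by
    simp only [LinearMap.zero_apply, MultilinearMap.map_update_zero, Finset.sum_const_zero,
      mul_zero, zero_mul]⟩
  add_mem' := fun {a b} ha hb => ⟨fun x y => by
    have h1 := ha.1 x y
    have h2 := hb.1 x y
    simp only [LinearMap.add_apply, map_add]
    linear_combination h1 + h2, fun m φ hφ v => by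
    have h1 := ha.2 m φ hφ v
    have h2 := hb.2 m φ hφ v
    rw [mul_zero, zero_mul] at h1 h2 ⊢
    simp only [LinearMap.add_apply, MultilinearMap.map_update_add, Finset.sum_add_distrib, h1, h2,
      add_zero]⟩
  smul_mem' := fun c a ha => ⟨fun x y => by
    have h1 := ha.1 x y
    simp only [LinearMap.smul_apply, map_smul, smul_eq_mul]
    linear_combination c * h1, fun m φ hφ v => by
    have h1 := ha.2 m φ hφ v
    rw [mul_zero, zero_mul] at h1 ⊢
    simp only [LinearMap.smul_apply, MultilinearMap.map_update_smul, ← Finset.smul_sum, h1,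
      smul_zero]⟩

omit [FiniteDimensional k V] in
theorem mem_tateLie {Y : End k V} : Y ∈ TateLie ρ χ ω ↔
    (∀ x y, ω (Y x) y + ω x (Y y) = 0) ∧ KillsTate ρ χ Y 0 := Iff.rfl

include hω hl in
theorem tateLie_props (hss : FiniteIndexSemisimple ρ) :
    IsLie (TateLie ρ χ ω) ∧ NonDeg (TateLie ρ χ ω) ∧
      (∀ γ, ∀ Y ∈ TateLie ρ χ ω, AdE (ρ γ) (ρ γ⁻¹) Y ∈ TateLie ρ χ ω) ∧
      ∀ γ, ∃ M : ℕ, 0 < M ∧ ∀ Z, (∀ Y ∈ TateLie ρ χ ω, Y * Z = Z * Y) →
        ρ γ ^ M * Z = Z * ρ γ ^ M := by
  obtain ⟨L, hLie, hnd, hsp, hAd, hkill, hmem, hord⟩ := exists_lie ω hl hω hss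
  have hLT : TateLie ρ χ ω = L := by
    refine le_antisymm (fun Y hY => hmem Y hY.1 fun m φ hφ => kills_mixed ω hl hω hY.1 hY.2 hφ)
      fun Y hY => ⟨hsp Y hY, hkill Y hY⟩
  rw [hLT]
  exact ⟨hLie, hnd, hAd, hord⟩

end full

end Pool.Agent.W5h23.Four
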