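import Mathlib
import Pool.Agent.H86.CMLib9.W5h23.Four.Rosati
import Pool.Agent.H86.CMLib9.W5h23.Four.Full
import Pool.Agent.H86.CMLib.Y220.RM.TFR
import Pool.Agent.H86.CMLib.W522.U.C9

/-!
# The Mumford-Tate conjecture and classes in four variables
-/

set_option autoImplicit false

namespace Pool.Agent.W5h23.Four

open Module TensorProduct Pool.Agent.H204R3.GP Pool.Agent.H204R3.SP Pool.Agent.TH118.MT
  Pool.Agent.W522.U Pool.Agent.Y114.RM Pool.Agent.H50.FT Pool.Agent.R913.Adj Pool.Agent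

section top

/-- a stable space of endomorphisms on which all elements have finite order is fixed by a subgroup of
finite index -/
theorem exists_commuting {ℓ : ℕ} [Fact ℓ.Prime] {V : Type} [AddCommGroup V] [Module ℚ_[ℓ] V]
    [FiniteDimensional ℚ_[ℓ] V] {Γ : Type} [Group Γ] [TopologicalSpace Γ] [IsTopologicalGroup Γ]
    [CompactSpace Γ] (ρ : Representation ℚ_[ℓ] Γ V)
    (hcont : ∀ (f : Dual ℚ_[ℓ] V) (x : V), Continuous fun γ => f (ρ γ x))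
    (A : Submodule ℚ_[ℓ] (End ℚ_[ℓ] V)) (hA : ∀ γ : Γ, ∀ Y ∈ A, AdE (ρ γ) (ρ γ⁻¹) Y ∈ A)
    (hfin : ∀ γ : Γ, ∃ M : ℕ, 0 < M ∧ ∀ Y ∈ A, ρ γ ^ M * Y = Y * ρ γ ^ M) :
    ∃ Δ : Subgroup Γ, Δ.FiniteIndex ∧ ∀ γ ∈ Δ, ∀ Y ∈ A, ρ γ * Y = Y * ρ γ := by
  let b := finBasis ℚ_[ℓ] V
  let e : V ≃ₗ[ℚ_[ℓ]] (Fin (finrank ℚ_[ℓ] V) → ℚ_[ℓ]) := b.equivFun
  let tV : TopologicalSpace V := TopologicalSpace.induced e inferInstance
  have h1 : IsTopologicalAddGroup V := topologicalAddGroup_induced e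
  have h2 : ContinuousSMul ℚ_[ℓ] V := continuousSMul_induced e
  have h3 : T2Space V := T2Space.of_injective_continuous e.injective continuous_induced_dom
  refine Y220.RM.tfr_abs ρ (fun X x => ?_) A hA hfin
  rw [continuous_induced_rng]
  refine continuous_pi fun i => ?_
  have h4 : (fun γ => e (AdE (ρ γ) (ρ γ⁻¹) X x) i) = fun γ =>
      ∑ j, (b.coord j ∘ₗ X) (ρ γ⁻¹ x) * b.coord i (ρ γ (b j)) := by
    funext γ
    rw [AdE_apply]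
    change b.repr (ρ γ (X (ρ γ⁻¹ x))) i = _
    conv_lhs => rw [← b.sum_repr (X (ρ γ⁻¹ x)), map_sum, map_sum, Finsupp.finsetSum_apply]
    refine Finset.sum_congr rfl fun j _ => ?_
    rw [map_smul, map_smul, Finsupp.smul_apply, smul_eq_mul]
    rfl
  change Continuous fun γ => e (AdE (ρ γ) (ρ γ⁻¹) X x) i
  rw [h4]
  refine continuous_finsetSum _ fun j _ => ?_
  exact ((hcont (b.coord j ∘ₗ X) x).comp continuous_inv).mul (hcont (b.coord i) (b j))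

end top

theorem bcb_skew {k : Type} [Field k] [CharZero k] {W : Type} [AddCommGroup W] [Module ℚ W]
    {ω₀ : W →ₗ[ℚ] W →ₗ[ℚ] ℚ} (halt : ∀ v, ω₀ v v = 0) (u v : k ⊗[ℚ] W) :
    bcb k ω₀ u v = -bcb k ω₀ v u := by
  have h0 : ∀ u v, ω₀ u v = -ω₀ v u := by
    intro u v
    have h1 := halt (u + v)
    rw [map_add, map_add, LinearMap.add_apply, LinearMap.add_apply, halt, halt, zero_add,
      add_zero] at h1
    linear_combination h1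
  induction u with
  | zero => simp only [map_zero, LinearMap.zero_apply, neg_zero]
  | add u u' hu hu' =>
    rw [map_add, LinearMap.add_apply, hu, hu', map_add, neg_add]
  | tmul a u =>
    induction v with
    | zero => simp only [map_zero, LinearMap.zero_apply, neg_zero]
    | add v v' hv hv' => rw [map_add, LinearMap.map_add₂, hv, hv', neg_add]
    | tmul b v => rw [bcb_tmul, bcb_tmul, h0 u v, neg_smul, mul_comm]

section main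

variable {ℓ : ℕ} [Fact ℓ.Prime] {W T : Type} [AddCommGroup W] [Module ℚ W] [FiniteDimensional ℚ W]
  [AddCommGroup T] [Module ℂ T] {per : W →+ T} {ω₀ : W →ₗ[ℚ] W →ₗ[ℚ] ℚ}
  (halt : ∀ v, ω₀ v v = 0) (hnondeg : ∀ u, (∀ v, ω₀ v u = 0) → u = 0)
  (hω₀ : IsHodgeBilinear per ω₀)
  {Γ : Type} [Group Γ] [TopologicalSpace Γ] [IsTopologicalGroup Γ] [CompactSpace Γ]
  {ρ : Representation ℚ_[ℓ] Γ (ℚ_[ℓ] ⊗[ℚ] W)} {χ : Γ →* ℚ_[ℓ]}
  (hcont : ∀ (f : Dual ℚ_[ℓ] (ℚ_[ℓ] ⊗[ℚ] W)) (x : ℚ_[ℓ] ⊗[ℚ] W), Continuous fun γ => f (ρ γ x))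
  (hω : ∀ s u v, bcb ℚ_[ℓ] ω₀ (ρ s u) (ρ s v) = χ s * bcb ℚ_[ℓ] ω₀ u v)
  (hss : FiniteIndexSemisimple ρ) (hF : FaltingsEnd per (incl ℚ_[ℓ] W) ρ)
  (hDel : ∀ (m : ℕ), ∀ φ ∈ HodgeSpan (k := ℚ_[ℓ]) per (incl ℚ_[ℓ] W) m, IsTateTensor ρ χ m φ)

/-- `P` is the orthogonal projection to `L` for the trace form. -/
def IsTraceProjection {k V : Type} [Field k] [AddCommGroup V] [Module k V]
    (L : Submodule k (End k V)) (P : End k V →ₗ[k] End k V) : Prop :=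
  (∀ R, P R ∈ L) ∧ ∀ R, ∀ Y ∈ L, LinearMap.trace k V ((R - P R) * Y) = 0

theorem isTraceProjection_oproj {k V : Type} [Field k] [AddCommGroup V] [Module k V]
    [FiniteDimensional k V] {L : Submodule k (End k V)} (hnd : NonDeg L) :
    IsTraceProjection L (oproj L hnd) := by
  refine ⟨fun R => oproj_mem hnd R, fun R Y hY => ?_⟩
  have h1 := (LinearMap.BilinForm.mem_orthogonal_iff.1 (sub_oproj hnd R)) Y hY
  rw [LinearMap.trace_mul_comm]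
  exact h1

theorem eq_oproj {k V : Type} [Field k] [AddCommGroup V] [Module k V]
    [FiniteDimensional k V] {L : Submodule k (End k V)} (hnd : NonDeg L)
    {P : End k V →ₗ[k] End k V} (hP : IsTraceProjection L P) : P = oproj L hnd := by
  refine LinearMap.ext fun R => ?_
  rw [← sub_eq_zero]
  refine hnd _ (L.sub_mem (hP.1 R) (oproj_mem hnd R)) fun Y hY => ?_
  have h1 := hP.2 R Y hY
  have h2 := (isTraceProjection_oproj hnd).2 R Y hY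
  rw [sub_mul, map_sub] at h1 h2 ⊢
  linear_combination h2 - h1

omit [TopologicalSpace Γ] [IsTopologicalGroup Γ] [CompactSpace Γ] in
include hDel in
theorem tateLie_le {Y : End ℚ_[ℓ] (ℚ_[ℓ] ⊗[ℚ] W)} (hY : Y ∈ TateLie ρ χ (bcb ℚ_[ℓ] ω₀)) :
    InLieMT per (incl ℚ_[ℓ] W) Y 0 := fun m φ hφ v => hY.2 m φ (hDel m φ hφ) v

include halt hnondeg hω hss in
omit [TopologicalSpace Γ] [IsTopologicalGroup Γ] [CompactSpace Γ] in
/-- the class of the projection is a Tate class in `Sym² (Sym² H¹)` -/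
theorem class_tate {P : End ℚ_[ℓ] (ℚ_[ℓ] ⊗[ℚ] W) →ₗ[ℚ_[ℓ]] End ℚ_[ℓ] (ℚ_[ℓ] ⊗[ℚ] W)}
    (hP : IsTraceProjection (TateLie ρ χ (bcb ℚ_[ℓ] ω₀)) P) :
    IsTateTensor ρ χ 2 (pf (bcb ℚ_[ℓ] ω₀) P) ∧ IsSymSym (pf (bcb ℚ_[ℓ] ω₀) P) := by
  have hl : ∀ u, (∀ v, bcb ℚ_[ℓ] ω₀ u v = 0) → u = 0 :=
    fun u hu => bcb_nondeg_left ω₀ hnondeg (left_nondeg ω₀ halt hnondeg) u hu
  obtain ⟨hLie, hnd, hAd, hord⟩ := tateLie_props (bcb ℚ_[ℓ] ω₀) hl hω hss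
  rw [eq_oproj hnd hP]
  exact ⟨pf_tate (bcb ℚ_[ℓ] ω₀) hω fun γ R => oproj_AdE hnd (hAd γ) (fun Y hY => by
      have h1 := hAd γ⁻¹ Y hY
      rwa [inv_inv] at h1) R,
    pf_symm (bcb ℚ_[ℓ] ω₀) (bcb_skew halt) hnd fun Y hY => hY.1⟩

include halt hnondeg hω₀ hcont hω hss hF hDel

/-- the elements of the Lie algebra of the Mumford-Tate group are sums of central elements and of
elements which kill the Tate classes -/
theorem central_part {P : End ℚ_[ℓ] (ℚ_[ℓ] ⊗[ℚ] W) →ₗ[ℚ_[ℓ]] End ℚ_[ℓ] (ℚ_[ℓ] ⊗[ℚ] W)}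
    (hP : IsTraceProjection (TateLie ρ χ (bcb ℚ_[ℓ] ω₀)) P)
    (hH : pf (bcb ℚ_[ℓ] ω₀) P ∈ HodgeSpan (k := ℚ_[ℓ]) per (incl ℚ_[ℓ] W) 2)
    {X : End ℚ_[ℓ] (ℚ_[ℓ] ⊗[ℚ] W)} {μ : ℚ_[ℓ]} (hX : InLieMT per (incl ℚ_[ℓ] W) X μ) :
    ∃ Z : End ℚ_[ℓ] (ℚ_[ℓ] ⊗[ℚ] W), InLieMT per (incl ℚ_[ℓ] W) Z μ ∧
      Z ∈ Submodule.span ℚ_[ℓ] (HE ℚ_[ℓ] per) ∧
      (∀ X' μ', InLieMT per (incl ℚ_[ℓ] W) X' μ' → X' * Z = Z * X') ∧
      X - Z ∈ TateLie ρ χ (bcb ℚ_[ℓ] ω₀) := by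
  have hl : ∀ u, (∀ v, bcb ℚ_[ℓ] ω₀ u v = 0) → u = 0 :=
    fun u hu => bcb_nondeg_left ω₀ hnondeg (left_nondeg ω₀ halt hnondeg) u hu
  obtain ⟨hLie, hnd, hAd, hord⟩ := tateLie_props (bcb ℚ_[ℓ] ω₀) hl hω hss
  rw [eq_oproj hnd hP] at hH
  set L := TateLie ρ χ (bcb ℚ_[ℓ] ω₀) with hLdef
  have hid : ∀ Z ∈ L, X * Z - Z * X ∈ L := by
    intro Z hZ
    have h1 := pf_comm (bcb ℚ_[ℓ] ω₀) hl (lieMT_bil hX hω₀) (fun v => hX 2 _ hH v) Z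
    rw [oproj_of_mem hnd hZ] at h1
    rw [← h1]
    exact oproj_mem hnd _
  have hC : ∀ Z ∈ L, Z * (X - oproj L hnd X) = (X - oproj L hnd X) * Z := fun Z hZ =>
    sub_oproj_comm hnd hLie hid hZ
  obtain ⟨Δ, hΔ, hcΔ⟩ := exists_commuting ρ hcont (comm L) (comm_conj hAd) (fun γ => by
    obtain ⟨M, hM, h⟩ := hord γ
    exact ⟨M, hM, fun Y hY => h Y hY⟩)
  have hE : X - oproj L hnd X ∈ Submodule.span ℚ_[ℓ] (HE ℚ_[ℓ] per) :=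
    hF _ ⟨Δ, hΔ, fun s hs v => (LinearMap.congr_fun (hcΔ s hs _ hC) v).symm⟩
  refine ⟨X - oproj L hnd X, ?_, hE, fun X' μ' hX' => lieMT_comm_span hω₀ hl hX' hE, ?_⟩
  · have hX' := hX
    rw [inLieMT_iff] at hX' ⊢
    intro m φ hφ
    have h1 := (inLieMT_iff.1 (tateLie_le hDel (oproj_mem hnd X))) m φ hφ
    have h2 := der_add_left (X - oproj L hnd X) (oproj L hnd X) φ
    rw [sub_add_cancel, hX' m φ hφ, h1, mul_zero, zero_smul, add_zero] at h2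
    exact h2.symm
  · rw [sub_sub_cancel]
    exact oproj_mem hnd X

theorem mumfordTate_of_central {e : ℝ ⊗[ℚ] W ≃ₗ[ℝ] T} (he : ∀ w, e ((1 : ℝ) ⊗ₜ[ℚ] w) = per w)
    {P : End ℚ_[ℓ] (ℚ_[ℓ] ⊗[ℚ] W) →ₗ[ℚ_[ℓ]] End ℚ_[ℓ] (ℚ_[ℓ] ⊗[ℚ] W)}
    (hP : IsTraceProjection (TateLie ρ χ (bcb ℚ_[ℓ] ω₀)) P)
    (hH : pf (bcb ℚ_[ℓ] ω₀) P ∈ HodgeSpan (k := ℚ_[ℓ]) per (incl ℚ_[ℓ] W) 2)
    (hZ : ∀ (Z : End ℚ_[ℓ] (ℚ_[ℓ] ⊗[ℚ] W)) (μ : ℚ_[ℓ]), InLieMT per (incl ℚ_[ℓ] W) Z μ →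
      Z ∈ Submodule.span ℚ_[ℓ] (HE ℚ_[ℓ] per) →
      (∀ X' μ', InLieMT per (incl ℚ_[ℓ] W) X' μ' → X' * Z = Z * X') → KillsTate ρ χ Z μ) :
    MumfordTate per (incl ℚ_[ℓ] W) ρ χ := by
  intro m φ hφ
  refine mem_hodgeSpan_of_killed e he φ fun X μ hX v => ?_
  obtain ⟨Z, h1, h2, h3, -, h5⟩ := central_part halt hnondeg hω₀ hcont hω hss hF hDel hP hH hX
  have h6 := hZ Z μ h1 h2 h3 m φ hφ v
  have h7 := h5 m φ hφ v
  rw [mul_zero, zero_mul] at h7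
  rw [← h6]
  have h8 : ∀ l, φ (Function.update v l ((X - Z) (v l))) =
      φ (Function.update v l (X (v l))) - φ (Function.update v l (Z (v l))) := by
    intro l
    rw [LinearMap.sub_apply, MultilinearMap.map_update_sub]
  rw [Finset.sum_congr rfl fun l _ => h8 l, Finset.sum_sub_distrib, sub_eq_zero] at h7
  exact h7

theorem tfae {e : ℝ ⊗[ℚ] W ≃ₗ[ℝ] T} (he : ∀ w, e ((1 : ℝ) ⊗ₜ[ℚ] w) = per w)
    {P : End ℚ_[ℓ] (ℚ_[ℓ] ⊗[ℚ] W) →ₗ[ℚ_[ℓ]] End ℚ_[ℓ] (ℚ_[ℓ] ⊗[ℚ] W)}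
    (hP : IsTraceProjection (TateLie ρ χ (bcb ℚ_[ℓ] ω₀)) P)
    (h : CentreOfLieAlgebra per (incl ℚ_[ℓ] W) ρ χ ∨ RosatiTrivialOnCentre per ω₀) :
    List.TFAE [MumfordTate per (incl ℚ_[ℓ] W) ρ χ, SymSymClasses per (incl ℚ_[ℓ] W) ρ χ,
      pf (bcb ℚ_[ℓ] ω₀) P ∈ HodgeSpan (k := ℚ_[ℓ]) per (incl ℚ_[ℓ] W) 2] := by
  have hl : ∀ u, (∀ v, bcb ℚ_[ℓ] ω₀ u v = 0) → u = 0 :=
    fun u hu => bcb_nondeg_left ω₀ hnondeg (left_nondeg ω₀ halt hnondeg) u hu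
  have hT := class_tate halt hnondeg hω hss hP
  tfae_have 1 → 2 := fun h φ hφ _ => h 2 φ hφ
  tfae_have 2 → 3 := fun h => h _ hT.1 hT.2
  tfae_have 3 → 1 := by
    intro hH
    refine mumfordTate_of_central halt hnondeg hω₀ hcont hω hss hF hDel he hP hH
      fun Z μ h1 h2 h3 => ?_
    rcases h with hcen | hR
    · exact hcen Z μ h1 h3
    · intro m φ hφ v
      rw [scalar_of_rosati hω₀ hl hR h1 h2, ← der_apply, der_smul_left, der_one,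
        MultilinearMap.smul_apply, MultilinearMap.smul_apply, smul_eq_mul, smul_eq_mul,
        Fintype.card_prod, Fintype.card_fin, Fintype.card_fin, Nat.cast_mul, Nat.cast_ofNat]
      ring
  tfae_finish

end main

end Pool.Agent.W5h23.Four
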